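import Mathlib

namespace Pool.Agent.Results.MP_ad0c0d_al.Counter

/-- the circulant matrix with first row `a`: entry `(i, j)` is `a (j - i)`, indices mod `n` -/
def cir {R : Type} {n : ℕ} [NeZero n] (a : Fin n → R) : Matrix (Fin n) (Fin n) R :=
  Matrix.of fun i j => a (j - i)

/-- the number of `n × n` circulant matrices over `R` with determinant `x` -/
noncomputable def c (n : ℕ) [NeZero n] (R : Type) [CommRing R] (x : R) : ℕ :=
  {a : Fin n → R | (cir a).det = x}.ncard

theorem result : ¬ ∀ (R : Type) [CommRing R] [Finite R] [Nontrivial R],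
    (∀ I J : Ideal R, I ≤ J ∨ J ≤ I) →
    ∀ (γ : R), (Ideal.span {γ}).IsMaximal → ∀ e : ℕ, IsLeast {k : ℕ | 0 < k ∧ γ ^ k = 0} e →
    ∀ (n : ℕ) [NeZero n] (b : Rˣ) (s : ℕ), s ≤ e →
      c n R (γ ^ s) = c n R (b * γ ^ s) := by
  intro h
  let eqv : (DualNumber (ZMod 2)) ≃ ZMod 2 × ZMod 2 := Equiv.refl _
  let : Fintype (DualNumber (ZMod 2)) := Fintype.ofEquiv _ eqv.symm
  have hall : ∀ x : (DualNumber (ZMod 2)), x = 0 ∨ x = 1 ∨ x = DualNumber.eps ∨ x = 1 + DualNumber.eps := by
    rintro ⟨a, b⟩
    have h2 : ∀ z : ZMod 2, z = 0 ∨ z = 1 := by decide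
    rcases h2 a with rfl | rfl <;> rcases h2 b with rfl | rfl
    · left; rfl
    · right; right; left; rfl
    · right; left; rfl
    · right; right; right; ext <;> simp [TrivSqZeroExt.fst, TrivSqZeroExt.snd] <;> rfl
  have e2 : (DualNumber.eps : (DualNumber (ZMod 2))) * DualNumber.eps = 0 := DualNumber.eps_mul_eps
  have t2 : (2 : (DualNumber (ZMod 2))) = 0 := by
    have : (2 : (DualNumber (ZMod 2))) = algebraMap (ZMod 2) (DualNumber (ZMod 2)) 2 := (map_ofNat _ 2).symm
    rw [this, show (2 : ZMod 2) = 0 from rfl, map_zero]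
  have hu : (1 + DualNumber.eps : (DualNumber (ZMod 2))) * (1 + DualNumber.eps) = 1 := by
    linear_combination e2 + DualNumber.eps * t2
  have ne0 : (DualNumber.eps : (DualNumber (ZMod 2))) ≠ 0 := fun h => by simpa using congrArg TrivSqZeroExt.snd h
  have hI : ∀ I : Ideal (DualNumber (ZMod 2)), I = ⊤ ∨ I ≤ Ideal.span {DualNumber.eps} := by
    intro I
    by_cases h1 : I = ⊤
    · exact Or.inl h1
    · right
      intro x hx
      rcases hall x with rfl | rfl | rfl | rfl
      · exact Submodule.zero_mem _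
      · exact absurd ((Ideal.eq_top_iff_one _).2 hx) h1
      · exact Ideal.mem_span_singleton_self _
      · exact absurd ((Ideal.eq_top_iff_one _).2 (hu ▸ I.mul_mem_left _ hx)) h1
  have hsp : ∀ x ∈ Ideal.span {(DualNumber.eps : (DualNumber (ZMod 2)))}, x = 0 ∨ x = DualNumber.eps := by
    intro x hx
    obtain ⟨y, rfl⟩ := Ideal.mem_span_singleton'.1 hx
    rcases hall y with rfl | rfl | rfl | rfl
    · simp
    · simp
    · simp [e2]
    · simp [add_mul, e2]
  have hne : Ideal.span {(DualNumber.eps : (DualNumber (ZMod 2)))} ≠ ⊤ := by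
    intro h1
    rcases hsp 1 (h1 ▸ Submodule.mem_top) with h2 | h2
    · exact one_ne_zero h2
    · rw [← h2] at e2; simp at e2
  have := h (DualNumber (ZMod 2)) ?_ DualNumber.eps ?_ 2 ?_ 2 ⟨1 + DualNumber.eps, 1 + DualNumber.eps, hu, hu⟩ 0 (by omega)
  · have h1 : {a : Fin 2 → (DualNumber (ZMod 2)) | (cir a).det = (1 + DualNumber.eps) * DualNumber.eps ^ 0} = ∅ := by
      ext a
      simp only [cir, Matrix.det_fin_two, Matrix.of_apply, pow_zero, mul_one, Set.mem_ofPred_eq,
        Set.mem_empty_iff_false, iff_false]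
      intro h1
      have h2 := congrArg TrivSqZeroExt.snd h1
      have h3 : (1 - 0 : Fin 2) = 1 := rfl
      have h4 : (0 - 1 : Fin 2) = 1 := rfl
      simp only [sub_self, h3, h4] at h2
      simp only [TrivSqZeroExt.snd_sub, DualNumber.snd_mul, TrivSqZeroExt.snd_add,
        TrivSqZeroExt.snd_one, DualNumber.snd_eps] at h2
      generalize (a 0).fst = p at h2
      generalize (a 0).snd = q at h2
      generalize (a 1).fst = r at h2
      generalize (a 1).snd = t at h2
      revert p q r t
      decide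
    simp only [c] at this
    rw [h1, Set.ncard_empty, Set.ncard_eq_zero (Set.toFinite _)] at this
    have h2 : (![1, 0] : Fin 2 → (DualNumber (ZMod 2))) ∈ {a : Fin 2 → (DualNumber (ZMod 2)) | (cir a).det = DualNumber.eps ^ 0} := by
      have h3 : (1 - 0 : Fin 2) = 1 := rfl
      have h4 : (0 - 1 : Fin 2) = 1 := rfl
      simp [cir, Matrix.det_fin_two, h3, h4]
    rw [this] at h2
    exact h2
  · intro I J
    rcases hI I with rfl | h1
    · exact Or.inr le_top
    rcases hI J with rfl | h2
    · exact Or.inl le_top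
    by_cases h3 : DualNumber.eps ∈ I
    · right
      intro x hx
      rcases hsp x (h2 hx) with rfl | rfl
      · exact Submodule.zero_mem _
      · exact h3
    · left
      intro x hx
      rcases hsp x (h1 hx) with rfl | rfl
      · exact Submodule.zero_mem _
      · exact absurd hx h3
  · refine ⟨⟨hne, fun J hJ => ?_⟩⟩
    rcases hI J with h1 | h1
    · exact h1
    · exact absurd (lt_of_lt_of_le hJ h1) (lt_irrefl _)
  · refine ⟨⟨by omega, by rw [pow_two, e2]⟩, ?_⟩
    rintro k ⟨h1, h2⟩
    by_contra h3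
    have : k = 1 := by omega
    subst this
    exact ne0 (by simpa using h2)

end Pool.Agent.Results.MP_ad0c0d_al.Counter
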